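import Pool.Agent.helper17.HH.SpecR

set_option autoImplicit false

open scoped Pointwise

namespace Pool.Agent.HH

theorem RPL_g0 {M : Type*} [AddMonoid M] (x : M) : NSMul.nsmul 0 x = 0 := zero_nsmul x

theorem RPL_g1 {M : Type*} [AddMonoid M] (n : ℕ) (x : M) : NSMul.nsmul (n + 1) x = NSMul.nsmul n x + x := succ_nsmul x n

def RPL_ms (n : ℕ) (B : Finset ℤ) : Finset ℤ := NSMul.nsmul n B

theorem RPL_ms0 (B : Finset ℤ) : RPL_ms 0 B = 0 := RPL_g0 B

theorem RPL_ms1 (n : ℕ) (B : Finset ℤ) : RPL_ms (n + 1) B = RPL_ms n B + B := RPL_g1 n B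

theorem RPL_isum (d : ℝ) (U : Finset ℝ) (n : ℕ) (x : ℝ) (hx : x ∈ isum n U) :
    ∃ s ∈ RPL_ms n (cel d U), ((s : ℤ) : ℝ) ≤ x / d ∧ x / d ≤ s + n := by
  induction n generalizing x with
  | zero =>
    have h : x = 0 := by simpa [isum] using hx
    refine ⟨0, ?_, ?_, ?_⟩
    · rw [RPL_ms0]
      exact Finset.mem_zero.mpr rfl
    · simp [h]
    · simp [h]
  | succ n ih =>
    have h : x ∈ U + isum n U := hx
    obtain ⟨u, hu, y, hy, rfl⟩ := Finset.mem_add.mp h
    obtain ⟨s, hs, h1, h2⟩ := ih y hy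
    refine ⟨s + ⌊u / d⌋, ?_, ?_, ?_⟩
    · rw [RPL_ms1]
      exact Finset.add_mem_add hs (Finset.mem_image_of_mem _ hu)
    · rw [add_div]
      push_cast
      linarith [Int.floor_le (u / d)]
    · rw [add_div]
      push_cast
      linarith [Int.lt_floor_add_one (u / d)]

theorem RPL_proof (h : RCV_stmt) : RPL_stmt := by
  intro a b
  refine ⟨(a + b + 1) * 2 ^ (a + b), by positivity, ?_⟩
  intro d G U hG hU
  have hA : (cel d G).Nonempty := hG.image _
  have h1 := Finset.pluennecke_ruzsa_inequality_nsmul_sub_nsmul_sub hA (cel d U) a b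
  have hsub : cel d (isum a U - isum b U) ⊆ (RPL_ms a (cel d U) - RPL_ms b (cel d U)) + Finset.Icc (-(b : ℤ)) a := by
    intro k hk
    obtain ⟨x, hx, rfl⟩ := Finset.mem_image.mp hk
    obtain ⟨y, hy, z, hz, rfl⟩ := Finset.mem_sub.mp hx
    obtain ⟨s, hs, s1, s2⟩ := RPL_isum d U a y hy
    obtain ⟨t, ht, t1, t2⟩ := RPL_isum d U b z hz
    refine Finset.mem_add.mpr ⟨s - t, Finset.sub_mem_sub hs ht, ⌊(y - z) / d⌋ - (s - t), ?_, by ring⟩
    rw [Finset.mem_Icc, sub_div]
    constructor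
    · have h5 : s - t - b ≤ ⌊y / d - z / d⌋ := by
        rw [Int.le_floor]
        push_cast
        linarith
      linarith
    · have h5 : ⌊y / d - z / d⌋ ≤ s - t + a := by
        have h6 : ((⌊y / d - z / d⌋ : ℤ) : ℝ) ≤ ((s - t + a : ℤ) : ℝ) := by
          push_cast
          linarith [Int.floor_le (y / d - z / d)]
        exact_mod_cast h6
      linarith
  have h2 : (cel d (isum a U - isum b U)).card ≤ (RPL_ms a (cel d U) - RPL_ms b (cel d U)).card * (a + b + 1) := by
    refine (Finset.card_le_card hsub).trans ?_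
    refine Finset.card_add_le.trans ?_
    rw [Int.card_Icc]
    apply Nat.mul_le_mul_left
    omega
  have h3 : ((RPL_ms a (cel d U) - RPL_ms b (cel d U)).card : ℝ) ≤
      (((cel d G - cel d U).card : ℝ) / (cel d G).card) ^ (a + b) * (cel d G).card := by
    have h4 := (NNRat.cast_le (K := ℝ)).mpr h1
    push_cast at h4
    exact h4
  have h4 : ((cel d G - cel d U).card : ℝ) ≤ 2 * cov d (G - U) := by exact_mod_cast h.s2 d G U
  have h5 : (0 : ℝ) < (cel d G).card := by exact_mod_cast hA.card_pos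
  have h6 : ((cel d (isum a U - isum b U)).card : ℝ) ≤ ((RPL_ms a (cel d U) - RPL_ms b (cel d U)).card : ℝ) * (a + b + 1) := by
    exact_mod_cast h2
  have h7 : (((cel d G - cel d U).card : ℝ) / (cel d G).card) ^ (a + b) ≤ (2 * cov d (G - U) / (cel d G).card) ^ (a + b) := by
    apply pow_le_pow_left₀ (by positivity)
    exact div_le_div_of_nonneg_right h4 h5.le
  have e : (cov d G : ℝ) = (cel d G).card := rfl
  have e2 : (cov d (isum a U - isum b U) : ℝ) = (cel d (isum a U - isum b U)).card := rfl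
  rw [e2, e]
  calc ((cel d (isum a U - isum b U)).card : ℝ) ≤ ((RPL_ms a (cel d U) - RPL_ms b (cel d U)).card : ℝ) * (a + b + 1) := h6
    _ ≤ ((2 * cov d (G - U) / (cel d G).card) ^ (a + b) * (cel d G).card) * (a + b + 1) := by
        apply mul_le_mul_of_nonneg_right _ (by positivity)
        exact h3.trans (mul_le_mul_of_nonneg_right h7 h5.le)
    _ = (a + b + 1) * 2 ^ (a + b) * ((cov d (G - U) : ℝ) / (cel d G).card) ^ (a + b) * (cel d G).card := by
        rw [mul_div_assoc, mul_pow]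
        ring

end Pool.Agent.HH
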